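import Pool.Agent.helper27.PC2.Stmt2

/-! # PC project, second half: module AA -/

namespace Pool.Agent.helper27.PC

open Module Polynomial

theorem AA_snoc : ∀ (n : ℕ) (S S' : St) (l : Lab), S' ∈ ends n S → l ∈ addable 1 S' →
    move 1 S' l ∈ ends (n + 1) S
  | 0, S, S', l, h, hl => by
    have h' : S' = S := by simpa [ends] using h
    subst h'
    show move 1 S' l ∈ (addable 1 S').biUnion fun l => ends 0 (move 1 S' l)
    exact Finset.mem_biUnion.2 ⟨l, hl, by simp [ends]⟩
  | n + 1, S, S', l, h, hl => by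
    have h' : S' ∈ (addable 1 S).biUnion fun l => ends n (move 1 S l) := h
    obtain ⟨l', hl', hS'⟩ := Finset.mem_biUnion.1 h'
    show move 1 S' l ∈ (addable 1 S).biUnion fun l => ends (n + 1) (move 1 S l)
    exact Finset.mem_biUnion.2 ⟨l', hl', AA_snoc n _ S' l hS' hl⟩

theorem AA_mem_col {n i k : ℕ} {l : Lab} : l ∈ col n i k ↔
    l.2 < n + 1 ∧ ((l.1 = true ∧ l.2 ≠ n - i) ∨ (l.1 = false ∧ l.2 ≠ n - k)) := by
  obtain ⟨b, p⟩ := l
  unfold col
  cases b <;> simp [and_comm]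

theorem AA_col_zero (n : ℕ) : col n 0 0 = vac n := by
  ext ⟨b, p⟩
  rw [AA_mem_col]
  unfold vac
  cases b <;> simp <;> omega

theorem AA_step_false {n i k : ℕ} (hk : k < n) :
    (false, n - k - 1) ∈ addable 1 (col n i k) ∧
      move 1 (col n i k) (false, n - k - 1) = col n i (k + 1) := by
  constructor
  · unfold addable
    rw [Finset.mem_filter, AA_mem_col, AA_mem_col]
    unfold up
    simp only [true_and, reduceCtorEq, false_and, false_or]
    omega
  · ext ⟨b, p⟩
    unfold move up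
    rw [Finset.mem_insert, Finset.mem_erase, AA_mem_col, AA_mem_col]
    cases b <;> simp only [Prod.mk.injEq, true_and, reduceCtorEq, false_and, false_or, or_false, ne_eq,
      not_false_eq_true] <;> omega

theorem AA_step_true {n i k : ℕ} (hi : i < n) :
    (true, n - i - 1) ∈ addable 1 (col n i k) ∧
      move 1 (col n i k) (true, n - i - 1) = col n (i + 1) k := by
  constructor
  · unfold addable
    rw [Finset.mem_filter, AA_mem_col, AA_mem_col]
    unfold up
    simp only [true_and, reduceCtorEq, false_and, or_false]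
    omega
  · ext ⟨b, p⟩
    unfold move up
    rw [Finset.mem_insert, Finset.mem_erase, AA_mem_col, AA_mem_col]
    cases b <;> simp only [Prod.mk.injEq, true_and, reduceCtorEq, false_and, false_or, or_false, ne_eq,
      not_false_eq_true] <;> omega

theorem AA_col_false (n : ℕ) : ∀ k : ℕ, k ≤ n → col n 0 k ∈ ends k (vac n)
  | 0, _ => by rw [AA_col_zero]; simp [ends]
  | k + 1, h => by
    obtain ⟨h1, h2⟩ := AA_step_false (n := n) (i := 0) (k := k) (by omega)
    rw [← h2]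
    exact AA_snoc k _ _ _ (AA_col_false n k (by omega)) h1

theorem AA_col_one (n k : ℕ) (hn : 1 ≤ n) (hk : k ≤ n) : col n 1 k ∈ ends (k + 1) (vac n) := by
  obtain ⟨h1, h2⟩ := AA_step_true (n := n) (i := 0) (k := k) (by omega)
  rw [← h2]
  exact AA_snoc k _ _ _ (AA_col_false n k hk) h1

theorem AA_coeff_one_mul (p q : ℤ[X]) :
    (p * q).coeff 1 = p.coeff 0 * q.coeff 1 + p.coeff 1 * q.coeff 0 := by
  rw [Polynomial.coeff_mul, Finset.Nat.antidiagonal_succ]
  simp

theorem AA (hCH2 : CH2_stmt) (hHKP : HKP_stmt) (hVQ : VQ_stmt) (hSP : SP_stmt) : AA_stmt := by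
  classical
  intro t K _ _ v hv hinj n β α hTyp ht hα2
  obtain ⟨hβ1, hβP, hα1, hsum⟩ := hTyp
  obtain ⟨a₀, ha₀, ha₀2⟩ := hα2
  have hαpos : 2 ≤ α.sum := ha₀2.trans (List.single_le_sum (by simp) _ ha₀)
  obtain ⟨ε, hε, hsign, hone⟩ := hVQ t n β hβ1 hβP (by omega) ht
  -- the polynomials of the positive part
  have hp : ∀ (M S : St), ∃ p : ℤ[X], M ∈ ends β.sum (vac n) →
      v ^ (α.sum - α.length) * trP α.sum M S (opWQ (Qt t v) v n (posWord 0 α)) =
        p.eval₂ (Int.castRingHom K) (v ^ 2) ∧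
      v ^ (α.sum - α.length) * trP α.sum M S (opWQ (Qt t v) v n (posWord 0 α).reverse) =
        p.eval₂ (Int.castRingHom K) (v ^ 2) ∧
      0 ≤ (-1) ^ (α.sum - α.length) * p.coeff 0 ∧ (-1) ^ (α.sum - α.length) * p.coeff 1 ≤ 0 := by
    intro M S
    by_cases hM : M ∈ ends β.sum (vac n)
    · obtain ⟨p, h1, h2, h3, h4⟩ := hHKP t K v hv n β.sum α M S hα1 (by omega) hM
      exact ⟨p, fun _ => ⟨h1, h2, h3, h4⟩⟩
    · exact ⟨0, fun h => absurd h hM⟩
  choose p hp using hp
  set L := α.sum - α.length with hL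
  have hEq : ∀ S : St,
      v ^ (lenT t (word2 β α)) * trP n (vac n) S (opWQ (Qt t v) v n (word2 β α)) =
        (∑ M ∈ ends β.sum (vac n), vecT t n β M * p M S).eval₂ (Int.castRingHom K) (v ^ 2) ∧
      v ^ (lenT t (word2 β α)) * trP n (vac n) S (opWQ (Qt t v) v n (word2 β α).reverse) =
        (∑ M ∈ ends β.sum (vac n), vecT t n β M * p M S).eval₂ (Int.castRingHom K) (v ^ 2) := by
    intro S
    obtain ⟨h1, h2⟩ := hCH2 t K v hv n β α ⟨hβ1, hβP, hα1, hsum⟩ S
    constructor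
    · rw [h1, Polynomial.eval₂_finsetSum]
      refine Finset.sum_congr rfl fun M hM => ?_
      rw [Polynomial.eval₂_mul, (hp M S hM).1]
    · rw [h2, Polynomial.eval₂_finsetSum]
      refine Finset.sum_congr rfl fun M hM => ?_
      rw [Polynomial.eval₂_mul, (hp M S hM).2.1]
  refine ⟨fun S => ∑ M ∈ ends β.sum (vac n), vecT t n β M * p M S, hEq, ?_⟩
  -- signs
  set δ : ℤ := ε * (-1) ^ L with hδ
  have hε2 : ε * ε = 1 := by rcases hε with h | h <;> rw [h] <;> norm_num
  have hL2 : ((-1 : ℤ) ^ L) * ((-1 : ℤ) ^ L) = 1 := by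
    rw [← pow_add, ← two_mul, pow_mul]
    norm_num
  have hδ2 : δ * δ = 1 := by
    rw [hδ]
    calc ε * (-1) ^ L * (ε * (-1) ^ L) = (ε * ε) * ((-1 : ℤ) ^ L * (-1) ^ L) := by ring
      _ = 1 := by rw [hε2, hL2]; norm_num
  have hc0 : ∀ S : St, δ * (∑ M ∈ ends β.sum (vac n), vecT t n β M * p M S).coeff 0 =
      ∑ M ∈ ends β.sum (vac n), (ε * (vecT t n β M).coeff 0) * ((-1) ^ L * (p M S).coeff 0) := by
    intro S
    rw [Polynomial.finsetSum_coeff, Finset.mul_sum]
    refine Finset.sum_congr rfl fun M _ => ?_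
    rw [Polynomial.mul_coeff_zero, hδ]
    ring
  have hc1 : ∀ S : St, δ * (∑ M ∈ ends β.sum (vac n), vecT t n β M * p M S).coeff 1 =
      ∑ M ∈ ends β.sum (vac n), ((ε * (vecT t n β M).coeff 0) * ((-1) ^ L * (p M S).coeff 1) +
        (ε * (vecT t n β M).coeff 1) * ((-1) ^ L * (p M S).coeff 0)) := by
    intro S
    rw [Polynomial.finsetSum_coeff, Finset.mul_sum]
    refine Finset.sum_congr rfl fun M _ => ?_
    rw [AA_coeff_one_mul, hδ]
    ring
  have hT0 : ∀ S : St, ∀ M ∈ ends β.sum (vac n),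
      0 ≤ (ε * (vecT t n β M).coeff 0) * ((-1) ^ L * (p M S).coeff 0) := by
    intro S M hM
    exact mul_nonneg (hsign M).1 (hp M S hM).2.2.1
  have hT1 : ∀ S : St, ∀ M ∈ ends β.sum (vac n),
      ((ε * (vecT t n β M).coeff 0) * ((-1) ^ L * (p M S).coeff 1) +
        (ε * (vecT t n β M).coeff 1) * ((-1) ^ L * (p M S).coeff 0)) ≤ 0 := by
    intro S M hM
    have h1 := mul_nonpos_of_nonneg_of_nonpos (hsign M).1 (hp M S hM).2.2.2
    have h2 := mul_nonpos_of_nonpos_of_nonneg (hsign M).2 (hp M S hM).2.2.1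
    linarith
  have hf0 : ∀ S : St, 0 ≤ δ * (∑ M ∈ ends β.sum (vac n), vecT t n β M * p M S).coeff 0 := by
    intro S
    rw [hc0]
    exact Finset.sum_nonneg (hT0 S)
  have hf1 : ∀ S : St, δ * (∑ M ∈ ends β.sum (vac n), vecT t n β M * p M S).coeff 1 ≤ 0 := by
    intro S
    rw [hc1]
    exact Finset.sum_nonpos (hT1 S)
  have hsq : ∀ S : St, ((∑ M ∈ ends β.sum (vac n), vecT t n β M * p M S) ^ 2).coeff 1 =
      2 * ((δ * (∑ M ∈ ends β.sum (vac n), vecT t n β M * p M S).coeff 0) *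
        (δ * (∑ M ∈ ends β.sum (vac n), vecT t n β M * p M S).coeff 1)) := by
    intro S
    rw [sq, AA_coeff_one_mul]
    generalize (∑ M ∈ ends β.sum (vac n), vecT t n β M * p M S).coeff 0 = x
    generalize (∑ M ∈ ends β.sum (vac n), vecT t n β M * p M S).coeff 1 = y
    calc x * y + y * x = (δ * δ) * (2 * (x * y)) := by rw [hδ2]; ring
      _ = _ := by ring
  -- the special state
  set Ms : St := col n 0 β.sum with hMs
  set Ss : St := col n 1 (n - 1) with hSs
  have hMs_mem : Ms ∈ ends β.sum (vac n) := AA_col_false n _ (by omega)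
  have hSs_mem : Ss ∈ ends n (vac n) := by
    have := AA_col_one n (n - 1) (by omega) (by omega)
    rwa [Nat.sub_add_cancel (by omega)] at this
  have hlen : α.count 1 < α.length := by
    refine lt_of_le_of_ne List.count_le_length ?_
    intro h
    have := (List.count_eq_length.1 h) a₀ ha₀
    omega
  have hps : p Ms Ss = C ((-1) ^ L) * (C (α.count 1 : ℤ) + C ((α.length - α.count 1 : ℕ) : ℤ) * (1 - X)) := by
    apply hinj
    have h1 := (hp Ms Ss hMs_mem).1
    have h2 := (hSP t K v hv n β.sum α hα1 (by omega) (by omega)).1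
    have h3 : β.sum + α.sum - 1 = n - 1 := by omega
    rw [h3] at h2
    rw [h2] at h1
    show (p Ms Ss).eval₂ (Int.castRingHom K) (v ^ 2) = _
    rw [← h1]
    simp only [Polynomial.eval₂_mul, Polynomial.eval₂_add, Polynomial.eval₂_sub, Polynomial.eval₂_one,
      Polynomial.eval₂_X, Polynomial.eval₂_C]
    rw [hL]
    simp
  have hps0 : (-1) ^ L * (p Ms Ss).coeff 0 = α.length := by
    rw [hps]
    have : ((C ((-1 : ℤ) ^ L) * (C (α.count 1 : ℤ) + C ((α.length - α.count 1 : ℕ) : ℤ) * (1 - X))) : ℤ[X]).coeff 0 =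
        (-1) ^ L * ((α.count 1 : ℤ) + ((α.length - α.count 1 : ℕ) : ℤ)) := by
      rw [Polynomial.coeff_C_mul, Polynomial.coeff_add, Polynomial.coeff_C_mul, Polynomial.coeff_sub]
      simp
    rw [this, ← mul_assoc, hL2, one_mul]
    have := hlen.le
    omega
  have hps1 : (-1) ^ L * (p Ms Ss).coeff 1 = -((α.length - α.count 1 : ℕ) : ℤ) := by
    rw [hps]
    have : ((C ((-1 : ℤ) ^ L) * (C (α.count 1 : ℤ) + C ((α.length - α.count 1 : ℕ) : ℤ) * (1 - X))) : ℤ[X]).coeff 1 =
        (-1) ^ L * (-((α.length - α.count 1 : ℕ) : ℤ)) := by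
      rw [Polynomial.coeff_C_mul, Polynomial.coeff_add, Polynomial.coeff_C_mul, Polynomial.coeff_sub,
        Polynomial.coeff_C, Polynomial.coeff_one, Polynomial.coeff_X_one]
      simp
    rw [this, ← mul_assoc, hL2, one_mul]
  have hs0 : 0 < δ * (∑ M ∈ ends β.sum (vac n), vecT t n β M * p M Ss).coeff 0 := by
    rw [hc0]
    refine Finset.sum_pos' (hT0 Ss) ⟨Ms, hMs_mem, ?_⟩
    rw [hps0, hone, one_mul]
    have : 0 < α.length := by omega
    exact_mod_cast this
  have hs1 : δ * (∑ M ∈ ends β.sum (vac n), vecT t n β M * p M Ss).coeff 1 < 0 := by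
    rw [hc1]
    refine Finset.sum_neg' (hT1 Ss) ⟨Ms, hMs_mem, ?_⟩
    have h2 := mul_nonpos_of_nonpos_of_nonneg (hsign Ms).2 (hp Ms Ss hMs_mem).2.2.1
    rw [hps1, hone, one_mul]
    have : 0 < α.length - α.count 1 := by omega
    have h3 : (0 : ℤ) < ((α.length - α.count 1 : ℕ) : ℤ) := by exact_mod_cast this
    linarith
  -- conclusion
  show (∑ S ∈ ends n (vac n), (∑ M ∈ ends β.sum (vac n), vecT t n β M * p M S) ^ 2).coeff 1 < 0
  rw [Polynomial.finsetSum_coeff]
  refine Finset.sum_neg' ?_ ⟨Ss, hSs_mem, ?_⟩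
  · intro S _
    rw [hsq]
    have := mul_nonpos_of_nonneg_of_nonpos (hf0 S) (hf1 S)
    linarith
  · rw [hsq]
    have := mul_neg_of_pos_of_neg hs0 hs1
    linarith

end Pool.Agent.helper27.PC
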